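import Pool.Agent.Helper6.SH.Shear
import Pool.Agent.Helper6.SQ.StripZero
import Pool.Agent.Helper6.SQ.Two
import Pool.Agent.Helper6.SQ.Flat
import Pool.Agent.Helper41.FatMainTwo
import Pool.Agent.Helper48.SQ.Main

set_option autoImplicit false

/-! # MP_e6aa12_ag (helper6): `r = L ^ 2 + 2 f`, exactness in all degrees -/

namespace Pool.Agent.Helper6.SH

open Pool.Agent.Helper41.Fat Pool.Agent.Helper6.SQ

variable {K : Type*} [Field K]

theorem mid_state [Infinite K] (x f p m : ℕ) (hfp : f ≤ p) (hpx : p ≤ x + f)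
    (hbin : ∀ j ≤ m, ((m.choose j : ℕ) : K) ≠ 0) {u : ℕ → ℕ}
    (h : ∀ c < m, u c + p = x * (m - c) + f * (m + 1)) (hm : u m = p * m) :
    Good K (x + 2 * f) m u ((x + 2 * f) * (m + 1).choose 2) := by
  obtain ⟨κ, rfl⟩ : ∃ κ, p = f + κ := ⟨p - f, by omega⟩
  have e1 : f * (m + 1) = f * m + f := by ring
  have e2 : (f + κ) * m = κ * m + f * m := by ring
  refine good_redis x κ (f * m) m (by omega) hbin
    (n' := fun c => if c ≤ m then x * (m - c) + f * m else 0) (fun c hc => ?_) (by omega)
    (fun c hc => if_pos hc) (fun c hc => if_neg (by omega)) ?_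
  · have := h c hc
    omega
  · refine lin_R x f m _ fun c hc => ?_
    rw [if_pos hc]

/-- The degrees `m L ≤ d < m L + L`, if the extrapolated row `m` of the strips is large enough. -/
theorem corner_one [Infinite K] (L f m D : ℕ) (hL : 0 < L) (hDL : D < L)
    (hbin : ∀ j ≤ m, ((m.choose j : ℕ) : K) ≠ 0)
    (hA : f * m ≤ L * (D + 1) + (L + 1).choose 2) :
    Good K (L ^ 2 + 2 * f) m (fun b => m * L + D + 1 - b)
      (min ((m * L + D + 2).choose 2) ((L ^ 2 + 2 * f) * (m + 1).choose 2)) := by
  have hA' : ∀ c < m, strip L (m * L + D) c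
      = L ^ 2 * (m - c - 1) + (L * (D + 1) + (L + 1).choose 2) := fun c hc => strip_val L m D c hc
  have hstep : ∀ c < m, L ^ 2 * (m - c) = L ^ 2 * (m - c - 1) + L ^ 2 := by
    intro c hc
    obtain ⟨e, rfl⟩ : ∃ e, m = c + 1 + e := ⟨m - c - 1, by omega⟩
    rw [show c + 1 + e - c - 1 = e by omega, show c + 1 + e - c = e + 1 by omega]
    ring
  have h2L := two_mul_choose L
  by_cases hcase : L ^ 2 + f * m ≤ L * (D + 1) + (L + 1).choose 2
  · -- regular, unit moves
    apply Good.le (min_le_right _ _)
    have hmL : m ≤ m * L := Nat.le_mul_of_pos_right m hL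
    refine strip_R0 L f m (m * L + D) hL (by omega) ?_
    have h3 : ((L ^ 2 + f * m : ℕ) : ℤ) ≤ ((L * (D + 1) + (L + 1).choose 2 : ℕ) : ℤ) := by
      exact_mod_cast hcase
    have h4 : (2 : ℤ) * ((L + 1).choose 2 : ℕ) = L * (L + 1) := by exact_mod_cast h2L
    push_cast at h3 h4 ⊢
    nlinarith
  · have e1 : f * (m + 1) = f * m + f := by ring
    obtain ⟨p, hp⟩ : ∃ p, L ^ 2 + f * (m + 1) = L * (D + 1) + (L + 1).choose 2 + p :=
      ⟨L ^ 2 + f * (m + 1) - (L * (D + 1) + (L + 1).choose 2), by omega⟩
    have hfp : f ≤ p := by omega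
    have hpx : p ≤ L ^ 2 + f := by omega
    have hrow : ∀ c < m, strip L (m * L + D) c + p = L ^ 2 * (m - c) + f * (m + 1) := by
      intro c hc
      rw [hA' c hc, hstep c hc]
      omega
    let u : ℕ → ℕ := fun c => if c < m then strip L (m * L + D) c else if c = m then p * m else 0
    have hu1 : ∀ c < m, u c = strip L (m * L + D) c := fun c hc => if_pos hc
    have hu2 : u m = p * m := by simp [u]
    have hu3 : ∀ c, m + 1 ≤ c → u c = 0 := by
      intro c hc
      simp only [u]
      rw [if_neg (by omega), if_neg (by omega)]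
    have hgu : Good K (L ^ 2 + 2 * f) m u ((L ^ 2 + 2 * f) * (m + 1).choose 2) :=
      mid_state (L ^ 2) f p m hfp hpx hbin (fun c hc => by rw [hu1 c hc]; exact hrow c hc) hu2
    by_cases hq : p * m ≤ strip L (m * L + D) m
    · -- regular
      apply Good.le (min_le_right _ _)
      apply start L _ hL
      apply hgu.mono
      intro c
      rcases lt_trichotomy c m with hc | hc | hc
      · rw [hu1 c hc]
      · subst hc; rw [hu2]; exact hq
      · rw [hu3 c hc]; exact Nat.zero_le _
    · -- empty
      push Not at hq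
      apply Good.le (min_le_left _ _)
      apply start L _ hL
      have htot : ∑ c ∈ Finset.range (m + 1), u c = (L ^ 2 + 2 * f) * (m + 1).choose 2 := by
        rw [Finset.sum_range_succ, hu2]
        have h1 : ∑ c ∈ Finset.range m, u c + m * p
            = ∑ c ∈ Finset.range m, (L ^ 2 * (m - c) + f * (m + 1)) := by
          rw [← smul_eq_mul m p, ← Finset.card_range m, ← Finset.sum_const,
            Finset.card_range, ← Finset.sum_add_distrib]
          exact Finset.sum_congr rfl fun c hc => by
            rw [Finset.mem_range] at hc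
            rw [hu1 c hc]
            exact hrow c hc
        rw [mul_comm p m, h1, sum_stair_lin]
        have h2 := two_mul_choose m
        nlinarith
      rw [← sum_strip_total L (m * L + D) (m + 1) (by rw [Nat.succ_mul]; omega)]
      rw [← htot] at hgu
      apply hgu.shrink (m + 1) (m + 1) hu3
      intro c
      rcases lt_trichotomy c m with hc | hc | hc
      · rw [hu1 c hc]
      · subst hc; rw [hu2]; exact hq.le
      · rw [strip_zero L _ c (by
          have : (m + 1) * L ≤ c * L := Nat.mul_le_mul_right L hc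
          rw [Nat.succ_mul] at this
          omega)]
        exact Nat.zero_le _

/-- Emptiness in lower degrees. -/
theorem descend {r m d d' : ℕ} (h : d ≤ d')
    (hg : Good K r m (fun b => d' + 1 - b) ((d' + 2).choose 2)) :
    Good K r m (fun b => d + 1 - b) ((d + 2).choose 2) := by
  have h1 : ∑ b ∈ Finset.range (d' + 1), (d' + 1 - b) = (d' + 2).choose 2 := sum_stair (d' + 1)
  have h2 : ∑ b ∈ Finset.range (d + 1), (d + 1 - b) = (d + 2).choose 2 := sum_stair (d + 1)
  rw [← h1] at hg
  rw [← h2]
  exact hg.shrink (d' + 1) (d + 1) (fun c hc => by omega) (fun c => by omega)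

/-- Regularity in higher degrees. -/
theorem ascend {r m d d' ρ : ℕ} (h : d ≤ d') (hg : Good K r m (fun b => d + 1 - b) ρ) :
    Good K r m (fun b => d' + 1 - b) ρ :=
  hg.mono fun c => by omega

/-- **Exactness in all degrees** for `r = L ^ 2 + 2 f` and `m` up to about `5 L ^ 2 / 2 f`; if
`0 < 2 f m < L (L + 1)` the binomial coefficients of `m` must not vanish in `K`. -/
theorem good_range [Infinite K] (L f m d : ℕ) (hL : 1 ≤ L)
    (hK : f = 0 ∨ L * (L + 1) ≤ 2 * (f * m) ∨ ∀ j ≤ m, ((m.choose j : ℕ) : K) ≠ 0)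
    (hr : 2 * (f * (m * (m + 1))) ≤ L ^ 2 * (3 * m + 4) + L * (m + 2) ∨
      2 * (m + 1) ≤ L * (L + 1) ∧
        2 * (f * (m * (m + 1))) ≤ L ^ 2 * (5 * m + 9) + L * (m + 3)) :
    Good K (L ^ 2 + 2 * f) m (fun b => d + 1 - b)
      (min ((d + 2).choose 2) ((L ^ 2 + 2 * f) * (m + 1).choose 2)) := by
  rcases Nat.eq_zero_or_pos m with hm0 | hm0
  · subst hm0
    refine Good.le ?_ (Good.final (K := K) (L ^ 2 + 2 * f) 0 (fun b => d + 1 - b))
    simp
  rcases Nat.eq_zero_or_pos f with hf0 | hf0
  · subst hf0
    have := Pool.Agent.Helper48.SQ.good_sq_all (K := K) L m d hL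
    simpa using this
  have hch := two_mul_choose m
  have hR : 2 * ((L ^ 2 + 2 * f) * (m + 1).choose 2) = (L ^ 2 + 2 * f) * (m * (m + 1)) := by
    rw [← hch]; ring
  -- the degree `L (m + 1) - 1`
  rcases Nat.lt_or_ge (d + 1) (L * (m + 1)) with hlow | hge
  · rcases hK with hK | hK | hK
    · omega
    · -- everything is empty there
      apply Good.le (min_le_left _ _)
      have hpos : 1 ≤ L * (m + 1) := Nat.mul_pos hL (Nat.succ_pos m)
      obtain ⟨d', hd'⟩ : ∃ d', d' + 1 = L * (m + 1) := ⟨L * (m + 1) - 1, by omega⟩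
      apply descend (d' := d') (by omega)
      have hex := strip_exact (K := K) L f m d' hL hd'.ge
        (by have : L * (m + 2) = L * (m + 1) + L := by ring
            omega)
      rwa [min_eq_left] at hex
      have h1 := two_mul_choose (d' + 1)
      have h2 : (d' + 1) * (d' + 1 + 1) ≤ (L ^ 2 + 2 * f) * (m * (m + 1)) := by
        rw [hd']
        have h3 : L * (m + 1) * (L * (m + 1) + 1)
            = L ^ 2 * (m * (m + 1)) + (m + 1) * (L * (L + 1)) := by ring
        have h4 : (L ^ 2 + 2 * f) * (m * (m + 1))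
            = L ^ 2 * (m * (m + 1)) + (m + 1) * (2 * (f * m)) := by ring
        have h5 : (m + 1) * (L * (L + 1)) ≤ (m + 1) * (2 * (f * m)) := Nat.mul_le_mul_left _ hK
        omega
      have h6 : (d' + 1 + 1).choose 2 = (d' + 2).choose 2 := rfl
      omega
    · rcases Nat.lt_or_ge (2 * (f * m)) (L * (L + 1)) with hfm | hfm
      · rcases Nat.lt_or_ge d (m * L) with hd | hd
        · -- below `m L`
          apply Good.le (min_le_left _ _)
          have hpos : 1 ≤ m * L := Nat.mul_pos hm0 hL
          obtain ⟨d', hd'⟩ : ∃ d', d' + 1 = m * L := ⟨m * L - 1, by omega⟩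
          apply descend (d' := d') (by omega)
          exact strip_E0 L f m 0 d' hL (by rw [hd', add_zero, mul_comm]) (Nat.zero_le _)
            (Nat.zero_le _)
        · obtain ⟨D, rfl⟩ : ∃ D, d = m * L + D := ⟨d - m * L, by omega⟩
          have h1 : L * (m + 1) = m * L + L := by ring
          apply corner_one L f m D hL (by omega) hK
          have h2 := two_mul_choose L
          have h3 : 0 ≤ L * (D + 1) := Nat.zero_le _
          omega
      · apply Good.le (min_le_left _ _)
        have hpos : 1 ≤ L * (m + 1) := Nat.mul_pos hL (Nat.succ_pos m)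
        obtain ⟨d', hd'⟩ : ∃ d', d' + 1 = L * (m + 1) := ⟨L * (m + 1) - 1, by omega⟩
        apply descend (d' := d') (by omega)
        have hex := strip_exact (K := K) L f m d' hL hd'.ge
          (by have : L * (m + 2) = L * (m + 1) + L := by ring
              omega)
        rwa [min_eq_left] at hex
        have h1 := two_mul_choose (d' + 1)
        have h2 : (d' + 1) * (d' + 1 + 1) ≤ (L ^ 2 + 2 * f) * (m * (m + 1)) := by
          rw [hd']
          have h3 : L * (m + 1) * (L * (m + 1) + 1)
              = L ^ 2 * (m * (m + 1)) + (m + 1) * (L * (L + 1)) := by ring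
          have h4 : (L ^ 2 + 2 * f) * (m * (m + 1))
              = L ^ 2 * (m * (m + 1)) + (m + 1) * (2 * (f * m)) := by ring
          have h5 : (m + 1) * (L * (L + 1)) ≤ (m + 1) * (2 * (f * m)) := Nat.mul_le_mul_left _ hfm
          omega
        have h6 : (d' + 1 + 1).choose 2 = (d' + 2).choose 2 := rfl
        omega
  have e2 : L * (m + 2) = L * (m + 1) + L := by ring
  have e3 : L * (m + 3) = L * (m + 1) + 2 * L := by ring
  rcases Nat.lt_or_ge d (L * (m + 2)) with hd2 | hd2
  · exact strip_exact L f m d hL hge hd2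
  rcases hr with hr | ⟨hr1, hr2⟩
  · -- regular from `L (m + 2) - 1` on
    apply Good.le (min_le_right _ _)
    obtain ⟨d', hd'⟩ : ∃ d', d' + 1 = L * (m + 2) := ⟨L * (m + 2) - 1, by omega⟩
    apply ascend (d := d') (by omega)
    have hex := strip_exact (K := K) L f m d' hL (by omega) (by omega)
    rwa [min_eq_right] at hex
    have h1 := two_mul_choose (d' + 1)
    have h2 : (L ^ 2 + 2 * f) * (m * (m + 1)) ≤ (d' + 1) * (d' + 1 + 1) := by
      rw [hd']
      have h3 : L * (m + 2) * (L * (m + 2) + 1)
          = L ^ 2 * (m * (m + 1)) + (L ^ 2 * (3 * m + 4) + L * (m + 2)) := by ring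
      have h4 : (L ^ 2 + 2 * f) * (m * (m + 1))
          = L ^ 2 * (m * (m + 1)) + 2 * (f * (m * (m + 1))) := by ring
      omega
    have h6 : (d' + 1 + 1).choose 2 = (d' + 2).choose 2 := rfl
    omega
  · rcases Nat.lt_or_ge (L * (m + 3)) (d + 1) with hd3 | hd3
    · apply Good.le (min_le_right _ _)
      obtain ⟨d', hd'⟩ : ∃ d', d' + 1 = L * (m + 3) := ⟨L * (m + 3) - 1, by omega⟩
      apply ascend (d := d') (by omega)
      have hex := strip_exact2 (K := K) L f m d' hL (by omega) (by omega) hr1
      rwa [min_eq_right] at hex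
      have h1 := two_mul_choose (d' + 1)
      have h2 : (L ^ 2 + 2 * f) * (m * (m + 1)) ≤ (d' + 1) * (d' + 1 + 1) := by
        rw [hd']
        have h3 : L * (m + 3) * (L * (m + 3) + 1)
            = L ^ 2 * (m * (m + 1)) + (L ^ 2 * (5 * m + 9) + L * (m + 3)) := by ring
        have h4 : (L ^ 2 + 2 * f) * (m * (m + 1))
            = L ^ 2 * (m * (m + 1)) + 2 * (f * (m * (m + 1))) := by ring
        omega
      have h6 : (d' + 1 + 1).choose 2 = (d' + 2).choose 2 := rfl
      omega
    · exact strip_exact2 L f m d hL (by omega) hd3 hr1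

end Pool.Agent.Helper6.SH
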