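import Pool.Agent.Helper41.FatMove

set_option autoImplicit false

/-! # MP_e6aa12_ag (helper6): the limit of a row space under `ζ ↦ ζ + t⁻¹ x ^ lam`, `t → 0`

A one-parameter degeneration whose only arithmetic input is that the binomial coefficients of the
last row do not vanish. -/

open Polynomial

namespace Pool.Agent.Helper6.SH

open Pool.Agent.Helper41.Fat

variable {K : Type*} [Field K]

variable (K) in
/-- The limits, for `t → 0`, of the row space `rows n` under `ζ ↦ ζ + t⁻¹ x ^ lam`. -/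
def Lim (lam : ℕ) (n : ℕ → ℕ) : Submodule K K[X][X] where
  carrier := {P | ∃ w : K[X][X][X], w.coeff 0 = P ∧ ∀ t : K, t ≠ 0 →
    ∃ z ∈ rows K n, taylor (C t⁻¹ * X ^ lam) z = w.eval (algebraMap K K[X][X] t)}
  zero_mem' := ⟨0, by simp, fun t _ => ⟨0, Submodule.zero_mem _, by simp⟩⟩
  add_mem' := by
    rintro P Q ⟨w, hw, hw'⟩ ⟨v, hv, hv'⟩
    refine ⟨w + v, by rw [coeff_add, hw, hv], fun t ht => ?_⟩
    obtain ⟨z, hz, hz'⟩ := hw' t ht
    obtain ⟨y, hy, hy'⟩ := hv' t ht
    exact ⟨z + y, Submodule.add_mem _ hz hy, by rw [map_add, hz', hy', eval_add]⟩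
  smul_mem' := by
    rintro a P ⟨w, hw, hw'⟩
    refine ⟨C (C (C a)) * w, by rw [coeff_C_mul, hw, smul_eq_CC], fun t ht => ?_⟩
    obtain ⟨z, hz, hz'⟩ := hw' t ht
    refine ⟨a • z, Submodule.smul_mem _ _ hz, ?_⟩
    rw [eval_mul, eval_C, ← hz', smul_eq_CC, taylor_mul, taylor_C]

theorem monomials_le {S : Submodule K K[X][X]} {n' : ℕ → ℕ}
    (h : ∀ i k, k < n' i → (C (X ^ k) * X ^ i : K[X][X]) ∈ S) : rows K n' ≤ S := by
  classical
  intro P hP
  rw [P.as_sum_support_C_mul_X_pow]
  apply Submodule.sum_mem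
  intro i _
  have hc := hP i
  rw [degreeLT_eq_span_X_pow] at hc
  have hmap : Submodule.map ((LinearMap.mulRight K (X ^ i : K[X][X])) ∘ₗ
      ((Algebra.linearMap K[X] K[X][X]).restrictScalars K))
      (Submodule.span K ↑(Finset.image (fun n => (X : K[X]) ^ n) (Finset.range (n' i)))) ≤ S := by
    rw [Submodule.map_span_le]
    intro q hq
    simp only [Finset.coe_image, Finset.coe_range, Set.mem_image, Set.mem_Iio] at hq
    obtain ⟨k, hk, rfl⟩ := hq
    exact h i k hk
  exact hmap (Submodule.mem_map_of_mem hc)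

theorem phi_shift {r m : ℕ} (η s : K[X]) (z : K[X][X]) :
    Phi K r m (η + s) z = Phi K r m η (taylor s z) := by
  have h : taylor η (taylor s z) = taylor (η + s) z := taylor_taylor z η s
  simp only [Phi, LinearMap.coe_comp, Function.comp_apply, LinearMap.coe_restrictScalars]
  rw [h]

/-- **The shear move.** -/
theorem good_shear [Infinite K] {r m ρ : ℕ} {n n' : ℕ → ℕ} (lam : ℕ)
    (h : ∀ i k, k < n' i → (C (X ^ k) * X ^ i : K[X][X]) ∈ Lim K lam n)
    (hg : Good K r m n' ρ) : Good K r m n ρ := by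
  obtain ⟨η', w', hw', hl⟩ := hg
  choose w hw0 hwt using fun a => monomials_le h (hw' a)
  obtain ⟨t, ht, hlt⟩ := exists_specialization (Phi K r m η') w (by simpa only [hw0] using hl)
  choose z hz hzt using fun a => hwt a t ht
  refine ⟨η' + C t⁻¹ * X ^ lam, z, hz, ?_⟩
  have e : (fun i => Phi K r m (η' + C t⁻¹ * X ^ lam) (z i))
      = fun i => Phi K r m η' ((w i).eval (algebraMap K K[X][X] t)) := by
    funext i
    rw [phi_shift, hzt]
  rw [e]
  exact hlt

/-- Expansion of the shear of a monomial. -/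
theorem taylor_mono (s : K) (lam k j : ℕ) :
    taylor (C s * X ^ lam) (C (X ^ k) * X ^ j : K[X][X])
      = ∑ c ∈ Finset.range (j + 1), ((j.choose c : K) * s ^ (j - c)) •
          (C (X ^ (k + lam * (j - c))) * X ^ c : K[X][X]) := by
  rw [taylor_mul, taylor_C, taylor_pow, taylor_X, add_pow, Finset.mul_sum]
  refine Finset.sum_congr rfl fun c _ => ?_
  obtain ⟨e, he⟩ : ∃ e, j - c = e := ⟨_, rfl⟩
  rw [he]
  have e1 : (C (C s * X ^ lam) : K[X][X]) ^ e = C (C (s ^ e)) * C (X ^ (lam * e)) := by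
    rw [← C_pow, mul_pow, ← C_pow, ← pow_mul, C_mul]
  have e2 : ((j.choose c : ℕ) : K[X][X]) = C (C ((j.choose c : ℕ) : K)) := by simp
  have e3 : (C (X ^ (k + lam * e)) : K[X][X]) = C (X ^ k) * C (X ^ (lam * e)) := by
    rw [pow_add, C_mul]
  have e4 : (C (C ((j.choose c : K) * s ^ e)) : K[X][X])
      = C (C ((j.choose c : ℕ) : K)) * C (C (s ^ e)) := by rw [C_mul, C_mul]
  rw [smul_eq_CC, e1, e2, e3, e4]
  ring

theorem mono_mem_rows' {n : ℕ → ℕ} {k c : ℕ} (h : k < n c) :
    (C (X ^ k) * X ^ c : K[X][X]) ∈ rows K n := by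
  apply mono_mem_rows
  rw [mem_degreeLT, degree_X_pow]
  exact_mod_cast h

theorem back_mem {n : ℕ → ℕ} (lam : ℕ) {k j : ℕ} (h : ∀ c ≤ j, k + lam * (j - c) < n c) (s : K) :
    taylor (C s * X ^ lam) (C (X ^ k) * X ^ j : K[X][X]) ∈ rows K n := by
  rw [taylor_mono]
  apply Submodule.sum_mem
  intro c hc
  rw [Finset.mem_range] at hc
  exact Submodule.smul_mem _ _ (mono_mem_rows' (h c (by omega)))

theorem taylor_back (s : K) (lam : ℕ) (P : K[X][X]) :
    taylor (C s * X ^ lam) (taylor (C (-s) * X ^ lam) P) = P := by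
  rw [taylor_taylor]
  have : (C s * X ^ lam + C (-s) * X ^ lam : K[X]) = 0 := by
    rw [C_neg]; ring
  rw [this, taylor_zero]

/-- Monomials all of whose lower neighbours are active are limits. -/
theorem mono_low {n : ℕ → ℕ} (lam : ℕ) {k j : ℕ} (h : ∀ c ≤ j, k + lam * (j - c) < n c) :
    (C (X ^ k) * X ^ j : K[X][X]) ∈ Lim K lam n := by
  refine ⟨C (C (X ^ k) * X ^ j), coeff_C_zero, fun t _ =>
    ⟨taylor (C (-t⁻¹) * X ^ lam) (C (X ^ k) * X ^ j), back_mem lam h _, ?_⟩⟩
  rw [taylor_back, eval_C]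

/-- The monomial obtained from the row `m`. -/
theorem mono_top {n : ℕ → ℕ} (lam : ℕ) {k b m : ℕ} (hbm : b ≤ m)
    (hbin : ((m.choose b : ℕ) : K) ≠ 0)
    (h : ∀ c < b, k + lam * (m - c) < n c) (hm : k < n m) :
    (C (X ^ (k + lam * (m - b))) * X ^ b : K[X][X]) ∈ Lim K lam n := by
  refine ⟨∑ l ∈ Finset.Ico b (m + 1), C (C (C ((m.choose l : K) * (m.choose b : K)⁻¹))
      * (C (X ^ (k + lam * (m - l))) * X ^ l)) * X ^ (l - b), ?_, fun t ht => ?_⟩
  · rw [finsetSum_coeff, Finset.sum_eq_single b]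
    · rw [Nat.sub_self, pow_zero, mul_one, coeff_C_zero, mul_inv_cancel₀ hbin, C_1, C_1, one_mul]
    · intro l hl hlb
      rw [Finset.mem_Ico] at hl
      rw [coeff_C_mul_X_pow, if_neg (by omega)]
    · intro hb
      exact absurd (Finset.mem_Ico.2 ⟨le_rfl, by omega⟩) hb
  · have hti : t⁻¹ ≠ 0 := inv_ne_zero ht
    refine ⟨((m.choose b : K) * t⁻¹ ^ (m - b))⁻¹ • (C (X ^ k) * X ^ m
      - ∑ l ∈ Finset.range b, ((m.choose l : K) * t⁻¹ ^ (m - l)) •
        taylor (C (-t⁻¹) * X ^ lam) (C (X ^ (k + lam * (m - l))) * X ^ l)), ?_, ?_⟩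
    · apply Submodule.smul_mem
      apply Submodule.sub_mem
      · exact mono_mem_rows' hm
      · apply Submodule.sum_mem
        intro l hl
        rw [Finset.mem_range] at hl
        apply Submodule.smul_mem
        apply back_mem
        intro c hc
        have h1 := h c (by omega)
        have e : lam * (m - c) = lam * (m - l) + lam * (l - c) := by
          rw [← mul_add]
          congr 1
          omega
        omega
    · have hlin : ∀ (a : K) (P : K[X][X]), taylor (C t⁻¹ * X ^ lam) (a • P)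
          = a • taylor (C t⁻¹ * X ^ lam) P := by
        intro a P
        rw [smul_eq_CC, smul_eq_CC, taylor_mul, taylor_C]
      rw [hlin, map_sub, map_sum, taylor_mono]
      have e1 : ∑ l ∈ Finset.range b, taylor (C t⁻¹ * X ^ lam)
          (((m.choose l : K) * t⁻¹ ^ (m - l)) •
            taylor (C (-t⁻¹) * X ^ lam) (C (X ^ (k + lam * (m - l))) * X ^ l : K[X][X]))
          = ∑ l ∈ Finset.range b, ((m.choose l : K) * t⁻¹ ^ (m - l)) •
            (C (X ^ (k + lam * (m - l))) * X ^ l : K[X][X]) := by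
        refine Finset.sum_congr rfl fun l _ => ?_
        rw [hlin, taylor_back]
      rw [e1, Finset.range_eq_Ico, Finset.range_eq_Ico,
        ← Finset.sum_Ico_consecutive _ (Nat.zero_le b) (by omega : b ≤ m + 1), add_sub_cancel_left,
        Finset.smul_sum, eval_finsetSum]
      refine Finset.sum_congr rfl fun l hl => ?_
      rw [Finset.mem_Ico] at hl
      rw [eval_mul, eval_C, eval_pow, eval_X, smul_smul, algebraMap_eq_CC, smul_eq_CC, ← C_pow,
        ← C_pow]
      have e2 : ((m.choose b : K) * t⁻¹ ^ (m - b))⁻¹ * ((m.choose l : K) * t⁻¹ ^ (m - l))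
          = ((m.choose l : K) * (m.choose b : K)⁻¹) * t ^ (l - b) := by
        have e3 : t⁻¹ ^ (m - b) = t⁻¹ ^ (m - l) * t⁻¹ ^ (l - b) := by
          rw [← pow_add]
          congr 1
          omega
        rw [e3]
        have h4 : t⁻¹ ^ (m - l) ≠ 0 := pow_ne_zero _ hti
        have h5 : t⁻¹ ^ (l - b) ≠ 0 := pow_ne_zero _ hti
        rw [inv_pow, inv_pow] at *
        field_simp
      rw [e2, C_mul, C_mul]
      ring

/-- **Redistribution of a corner.**  The rows `σ (m - c) + q - κ`, `c < m`, with `κ m + q` cells in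
the row `m`, become the rows `σ (m - c) + q`, `c ≤ m`. -/
theorem good_redis [Infinite K] {r ρ : ℕ} (σ κ q m : ℕ) (hκ : κ ≤ σ)
    (hbin : ∀ j ≤ m, ((m.choose j : ℕ) : K) ≠ 0) {n n' : ℕ → ℕ}
    (h : ∀ c < m, n c + κ = σ * (m - c) + q) (hm : n m = κ * m + q)
    (h' : ∀ c ≤ m, n' c = σ * (m - c) + q) (h0' : ∀ c, m < c → n' c = 0)
    (hg : Good K r m n' ρ) : Good K r m n ρ := by
  obtain ⟨lam, rfl⟩ : ∃ lam, σ = lam + κ := ⟨σ - κ, by omega⟩
  refine good_shear lam (fun j k hk => ?_) hg
  rcases Nat.lt_trichotomy j m with hj | hj | hj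
  · rw [h' j hj.le] at hk
    obtain ⟨e, rfl⟩ : ∃ e, m = j + 1 + e := ⟨m - j - 1, by omega⟩
    have e0 : j + 1 + e - j = e + 1 := by omega
    rw [e0] at hk
    have e1 : (lam + κ) * (e + 1) = lam * e + lam + κ * e + κ := by ring
    by_cases hA : k + κ < (lam + κ) * (e + 1) + q
    · -- all lower rows are active
      apply mono_low
      intro c hc
      have h1 := h c (by omega)
      obtain ⟨g, rfl⟩ : ∃ g, j = c + g := ⟨j - c, by omega⟩
      have e2 : c + g + 1 + e - c = g + e + 1 := by omega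
      have e3 : c + g - c = g := by omega
      rw [e2] at h1
      rw [e3]
      have e4 : (lam + κ) * (g + e + 1) = lam * g + κ * g + (lam + κ) * (e + 1) := by ring
      have e5 : 0 ≤ κ * g := Nat.zero_le _
      omega
    · -- the row `m` is used
      rw [not_lt] at hA
      have hk0 : lam * (e + 1) ≤ k := by
        have : lam * (e + 1) = lam * e + lam := by ring
        have e5 : 0 ≤ κ * e := Nat.zero_le _
        omega
      obtain ⟨k', rfl⟩ : ∃ k', k = k' + lam * (e + 1) := ⟨k - lam * (e + 1), by omega⟩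
      have key := mono_top (K := K) (n := n) lam (k := k') (b := j) (m := j + 1 + e) (by omega)
        (hbin j (by omega)) ?_ ?_
      · rwa [e0] at key
      · intro c hc
        have h1 := h c (by omega)
        obtain ⟨g, rfl⟩ : ∃ g, j = c + 1 + g := ⟨j - c - 1, by omega⟩
        have e2 : c + 1 + g + 1 + e - c = g + 1 + (e + 1) := by omega
        rw [e2] at h1 ⊢
        have e3 : (lam + κ) * (g + 1 + (e + 1))
            = lam * (g + 1 + (e + 1)) + κ * g + κ + κ * (e + 1) := by ring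
        have e4 : (lam + κ) * (e + 1) = lam * (e + 1) + κ * (e + 1) := by ring
        have e5 : 0 ≤ κ * g := Nat.zero_le _
        omega
      · rw [hm]
        have e4 : (lam + κ) * (e + 1) = lam * (e + 1) + κ * (e + 1) := by ring
        have e5 : κ * (j + 1 + e) = κ * j + κ * (e + 1) := by ring
        have e6 : 0 ≤ κ * j := Nat.zero_le _
        omega
  · subst hj
    rw [h' j le_rfl, Nat.sub_self, mul_zero, zero_add] at hk
    apply mono_low
    intro c hc
    rcases Nat.eq_or_lt_of_le hc with hc1 | hc1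
    · subst hc1
      rw [hm, Nat.sub_self, mul_zero, add_zero]
      have : 0 ≤ κ * c := Nat.zero_le _
      omega
    · have h1 := h c hc1
      obtain ⟨g, rfl⟩ : ∃ g, j = c + 1 + g := ⟨j - c - 1, by omega⟩
      have e2 : c + 1 + g - c = g + 1 := by omega
      rw [e2] at h1 ⊢
      have e3 : (lam + κ) * (g + 1) = lam * (g + 1) + κ * g + κ := by ring
      have e5 : 0 ≤ κ * g := Nat.zero_le _
      omega
  · rw [h0' j hj] at hk
    omega

end Pool.Agent.Helper6.SH
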